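import Mathlib

namespace Pool.Agent.Results.MP_f42b44_co.Tree
open Finset

variable {V : Type} [Fintype V] [DecidableEq V] (G : SimpleGraph V)

/-- `u ∈ N[s]` -/
def CN (s u : V) : Prop := u = s ∨ G.Adj s u
/-- `u ∈ PN(s, S)` -/
def PN (S : Finset V) (s u : V) : Prop := CN G s u ∧ ∀ t ∈ S, t ≠ s → ¬ CN G t u
def Irr (S : Finset V) : Prop := ∀ s ∈ S, ∃ u, PN G S s u
def MaxIrr (S : Finset V) : Prop := Irr G S ∧ ∀ T, S ⊂ T → ¬ Irr G T
noncomputable def ir : ℕ := sInf {k | ∃ S, MaxIrr G S ∧ S.card = k}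

noncomputable def ecc (v : V) : ℕ := univ.sup (G.dist v)
def Bc (f : V → ℕ) : Prop := ∀ v, f v ≤ ecc G v
def Hears (f : V → ℕ) (u : V) : Prop := ∃ v, 0 < f v ∧ G.dist u v ≤ f v
def IrrB (f : V → ℕ) : Prop :=
  ∀ v, 0 < f v → ∃ u, G.dist u v ≤ f v ∧ ¬ Hears G (Function.update f v (f v - 1)) u
def MaxIrrB (f : V → ℕ) : Prop := Bc G f ∧ IrrB G f ∧ ∀ g, Bc G g → f < g → ¬ IrrB G g
noncomputable def irb : ℕ := sInf {k | ∃ f, MaxIrrB G f ∧ ∑ v, f v = k}

variable {G}

omit [Fintype V] [DecidableEq V] in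
lemma Hears.mono {f g : V → ℕ} {u : V} (h : Hears G f u) (l : f ≤ g) : Hears G g u := by
  obtain ⟨v, a, b⟩ := h
  exact ⟨v, a.trans_le (l v), b.trans (l v)⟩

lemma irb_le [Nontrivial V] (hc : G.Connected) (h : V → ℕ) (hh : ∀ u, Hears G h u) :
    irb G ≤ ∑ v, h v := by
  have ex : ∃ k, ∃ f, Bc G f ∧ (∀ u, Hears G f u) ∧ ∑ v, f v = k ∧ k ≤ ∑ v, h v := by
    refine ⟨_, fun v => min (h v) (ecc G v), fun v => min_le_right _ _, fun u => ?_, rfl,
      sum_le_sum fun v _ => min_le_left _ _⟩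
    obtain ⟨v, a, b⟩ := hh u
    obtain ⟨w, hw⟩ := exists_ne v
    have := hc.pos_dist_of_ne hw.symm
    have e : ∀ w, G.dist v w ≤ ecc G v := fun w => le_sup (f := G.dist v) (mem_univ w)
    exact ⟨v, lt_min a (this.trans_le (e w)), le_min b (G.dist_comm ▸ e u)⟩
  classical
  obtain ⟨f, f1, f2, f3, f4⟩ := Nat.find_spec ex
  refine le_trans (Nat.sInf_le ?_) f4
  refine ⟨f, ⟨f1, fun v hv => ?_, fun g _ l hg => ?_⟩, f3⟩
  · by_contra c
    push Not at c
    have le : Function.update f v (f v - 1) ≤ f := update_le_self_iff.2 (Nat.sub_le _ _)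
    have lt : ∑ w, Function.update f v (f v - 1) w < ∑ w, f w :=
      sum_lt_sum (fun w _ => le w) ⟨v, mem_univ _, by simp; omega⟩
    refine Nat.find_min ex (f3 ▸ lt) ⟨_, fun w => (le w).trans (f1 w), fun u => ?_, rfl, by omega⟩
    obtain ⟨w, a, b⟩ := f2 u
    by_cases e : w = v
    · exact c u (e ▸ b)
    · exact ⟨w, by simpa [e] using a, by simpa [e] using b⟩
  · obtain ⟨l, w, hw⟩ := Pi.lt_def.1 l
    obtain ⟨u, -, b⟩ := hg w (by omega)
    refine b ((f2 u).mono fun x => ?_)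
    by_cases e : x = w
    · subst e; simp; omega
    · simpa [e] using l x

omit [Fintype V] [DecidableEq V] in
lemma no4 (ht : G.IsAcyclic) {x a u b : V} (h1 : G.Adj x a) (h2 : G.Adj a u) (h3 : G.Adj x b)
    (h4 : G.Adj b u) (h : x ≠ u) : a = b := by
  have := ht.path_unique ⟨.cons h1 (.cons h2 .nil), by simp [h1.ne, h2.ne, h]⟩
    ⟨.cons h3 (.cons h4 .nil), by simp [h3.ne, h4.ne, h]⟩
  have := congrArg (fun p => p.1.support) this
  simpa using this

omit [Fintype V] [DecidableEq V] in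
lemma no3 (ht : G.IsAcyclic) {x a u : V} (h1 : G.Adj x a) (h2 : G.Adj a u) (h3 : G.Adj x u) :
    False := by
  have := ht.path_unique ⟨.cons h1 (.cons h2 .nil), by simp [h1.ne, h2.ne, h3.ne]⟩
    ⟨.cons h3 .nil, by simp [h3.ne]⟩
  have := congrArg (fun p => p.1.length) this
  simp at this

lemma main (ht : G.IsTree) (S : Finset V) (hS : MaxIrr G S) :
    ∃ h : V → ℕ, (∀ u, Hears G h u) ∧ ∑ v, h v ≤ S.card := by
  classical
  have tr := @ht.connected.dist_triangle V G
  have d1 : ∀ {a b}, CN G a b → G.dist b a ≤ 1 := by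
    rintro a b (rfl | h)
    · simp
    · exact (G.dist_eq_one_iff_adj.2 h.symm).le
  have d2 : ∀ {a b c}, CN G a b → CN G b c → G.dist c a ≤ 2 := fun {a b c} h h' => by
    have := @tr c b a; have := d1 h; have := d1 h'; omega
  obtain ⟨U, hU, mx⟩ := exists_max_image (S.powerset.filter fun U => ∃ g : V → ℕ,
    ∑ v, g v ≤ U.card ∧ ∀ a ∈ U, ∀ u, G.dist u a ≤ 2 → Hears G g u) card ⟨∅, by simp; exact ⟨0, by simp⟩⟩
  simp only [mem_filter, mem_powerset] at hU mx
  obtain ⟨US, g, g1, g2⟩ := hU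
  have ext : ∀ (A : Finset V) c, A ⊆ S \ U → (∀ a ∈ A, G.dist a c + 2 ≤ A.card) → A = ∅ := by
    intro A c h1 h2
    have dj : Disjoint U A := disjoint_of_subset_right h1 disjoint_sdiff
    have := mx (U ∪ A) ⟨union_subset US (h1.trans sdiff_subset), g + Pi.single c A.card, ?_, ?_⟩
    · rw [card_union_of_disjoint dj] at this
      exact card_eq_zero.1 (by omega)
    · rw [card_union_of_disjoint dj]; simp [sum_add_distrib, g1]
    · intro a ha u hu
      rcases mem_union.1 ha with ha | ha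
      · exact (g2 a ha u hu).mono le_self_add
      · have := h2 a ha
        have := @tr u a c
        exact ⟨c, by simp only [Pi.add_apply, Pi.single_eq_same]; omega, by simp; omega⟩
  set L := S \ U with hL
  have p3 : ∀ {x y z}, x ∈ L → y ∈ L → z ∈ L → G.Adj y x → G.Adj y z → x = z := by
    intro x y z hx hy hz a b
    by_contra c
    have cd : ({x, y, z} : Finset V).card = 3 := card_eq_three.2 ⟨x, y, z, a.ne', c, b.ne, rfl⟩
    have := ext {x, y, z} y (by simp [insert_subset_iff, hx, hy, hz]) (by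
      have := d1 (Or.inr a); have := d1 (Or.inr b)
      simp only [cd, mem_insert, mem_singleton]; rintro _ (rfl | rfl | rfl) <;> simp <;> omega)
    simp at this
  let R : V → Prop := fun x => ∃ y, G.Adj x y ∧ ∀ u, PN G S x u → u = y
  have hp : ∀ x, ∃ y, R x → G.Adj x y ∧ ∀ u, PN G S x u → u = y := fun x => by
    by_cases h : R x
    · exact h.imp fun _ a _ => a
    · exact ⟨x, fun a => absurd a h⟩
  choose p hp using hp
  have hq : ∀ x, ∃ y, ((∃ y ∈ L, G.Adj x y ∧ R y) → y ∈ L ∧ G.Adj x y ∧ R y) ∧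
      ((¬ ∃ y ∈ L, G.Adj x y ∧ R y) → y = x) := fun x => by
    by_cases h : ∃ y ∈ L, G.Adj x y ∧ R y
    · obtain ⟨y, hy⟩ := h; exact ⟨y, fun _ => hy, fun a => absurd ⟨y, hy⟩ a⟩
    · exact ⟨x, fun a => absurd a h, fun _ => rfl⟩
  choose q hq using hq
  let φ : V → V := fun x => if R x then (if ∃ y ∈ L, G.Adj x y ∧ ¬ R y then x else p x) else q x
  let f : V → ℕ := fun v => #{x ∈ L | φ x = v}
  have f1 : ∀ x ∈ L, ∀ u, CN G (φ x) u → Hears G (g + f) u := fun x hx u h => by
    have : 0 < f (φ x) := card_pos.2 ⟨x, by simp [hx]⟩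
    have := d1 h
    exact ⟨φ x, by simp; omega, by simp; omega⟩
  have f2 : ∀ x ∈ L, ∀ y ∈ L, G.Adj x y → R x → ¬ R y → ∀ u, G.dist u x ≤ 2 →
      Hears G (g + f) u := fun x hx y hy a r1 r2 u h => by
    have e1 : φ x = x := by simp only [φ, if_pos r1]; exact if_pos ⟨y, hy, a, r2⟩
    have e2 : φ y = x := by
      simp only [φ, if_neg r2]
      obtain ⟨b, c, -⟩ := (hq y).1 ⟨x, hx, a.symm, r1⟩
      exact p3 b hy hx c a.symm
    have : 1 < f x := one_lt_card.2 ⟨x, by simp [hx, e1], y, by simp [hy, e2], a.ne⟩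
    exact ⟨x, by simp; omega, by simp; omega⟩
  have g3 : ∀ a ∈ U, ∀ u, G.dist u a ≤ 2 → Hears G (g + f) u := fun a ha u h =>
    (g2 a ha u h).mono le_self_add
  have mL : ∀ {x}, x ∈ S → x ∉ U → x ∈ L := fun a b => mem_sdiff.2 ⟨a, b⟩
  have cA : ∀ x ∈ S, R x → ∀ u, CN G (p x) u → Hears G (g + f) u := fun x hx r u h => by
    have d := d2 (Or.inr (hp x r).1) h
    by_cases xU : x ∈ U
    · exact g3 x xU u d
    by_cases c : ∃ y ∈ L, G.Adj x y ∧ ¬ R y
    · obtain ⟨y, a, b, c⟩ := c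
      exact f2 x (mL hx xU) y a b r c u d
    · exact f1 x (mL hx xU) u (by simpa only [φ, if_pos r, if_neg c] using h)
  have cB : ∀ s ∈ S, (∀ u, CN G s u → Hears G (g + f) u) ∨
      (s ∈ L ∧ R s ∧ ∃ t ∈ L, G.Adj s t ∧ R t) := fun s hs => by
    by_cases sU : s ∈ U
    · exact Or.inl fun u h => g3 s sU u ((d1 h).trans one_le_two)
    have sL := mL hs sU
    by_cases r : R s
    · have : ¬ PN G S s s := fun h => (hp s r).1.ne ((hp s r).2 s h)
      simp only [PN, CN, true_or, true_and, not_forall, not_not] at this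
      obtain ⟨t, ht, ne, h | h⟩ := this
      · exact absurd h.symm ne
      by_cases tU : t ∈ U
      · exact Or.inl fun u h' => g3 t tU u (d2 (Or.inr h) h')
      by_cases rt : R t
      · exact Or.inr ⟨sL, r, t, mL ht tU, h.symm, rt⟩
      · exact Or.inl fun u h' => f2 s sL t (mL ht tU) h.symm r rt u ((d1 h').trans one_le_two)
    · left
      intro u h
      by_cases c : ∃ y ∈ L, G.Adj s y ∧ R y
      · obtain ⟨y, a, b, c⟩ := c
        exact f2 y a s sL b.symm c r u (d2 (Or.inr b.symm) h)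
      · exact f1 s sL u (by simpa only [φ, if_neg r, (hq s).2 c] using h)
  refine ⟨g + f, fun u => ?_, ?_⟩
  · by_cases dom : ∃ s ∈ S, CN G s u
    · obtain ⟨s, hs, h⟩ := dom
      rcases cB s hs with c | ⟨sL, r, t, tL, st, rt⟩
      · exact c u h
      by_cases uS : u ∈ S
      · rcases cB u uS with c | ⟨-, ru, -⟩
        · exact c u (Or.inl rfl)
        · exact cA u uS ru u (Or.inr (hp u ru).1.symm)
      by_cases pn : PN G S s u
      · exact cA s hs r u (Or.inl ((hp s r).2 u pn))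
      simp only [PN, h, true_and, not_forall, not_not] at pn
      obtain ⟨s', hs', ne, h'⟩ := pn
      rcases cB s' hs' with c | ⟨sL', r', t', tL', st', rt'⟩
      · exact c u h'
      have a : G.Adj s u := h.resolve_left fun e => uS (e ▸ hs)
      have a' : G.Adj s' u := h'.resolve_left fun e => uS (e ▸ hs')
      have n1 : t ≠ s' := fun e => no3 ht.isAcyclic st (e ▸ a') a
      have n2 : s ≠ t' := fun e => no3 ht.isAcyclic st' (e ▸ a) a'
      have n3 : t ≠ t' := fun e => ne (p3 sL' tL sL (e ▸ st'.symm) st.symm)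
      have cd : ({s, t, s', t'} : Finset V).card = 4 :=
        card_eq_four.2 ⟨s, t, s', t', st.ne, ne.symm, n2, n1, n3, st'.ne, rfl⟩
      have := ext {s, t, s', t'} u (by simp [insert_subset_iff, sL, tL, sL', tL']) (by
        have := d1 (Or.inr a.symm); have := d1 (Or.inr a'.symm)
        have := d2 (Or.inr a.symm) (Or.inr st); have := d2 (Or.inr a'.symm) (Or.inr st')
        simp only [cd, mem_insert, mem_singleton]; rintro _ (rfl | rfl | rfl | rfl) <;> omega)
      simp at this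
    · push Not at dom
      have uS : u ∉ S := fun h => dom u h (Or.inl rfl)
      have := hS.2 _ (ssubset_insert uS)
      simp only [Irr, mem_insert, forall_eq_or_imp, not_and, not_forall, not_exists] at this
      obtain ⟨x, hx, h⟩ := this ⟨u, Or.inl rfl, fun t ht ne =>
        dom t ((mem_insert.1 ht).resolve_left ne)⟩
      have k : ∀ y, PN G S x y → G.Adj x y ∧ G.Adj y u := fun y hy => by
        have c : CN G u y := by
          by_contra c
          refine h y ⟨hy.1, fun t ht ne => ?_⟩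
          rcases mem_insert.1 ht with rfl | ht
          exacts [c, hy.2 t ht ne]
        have a : G.Adj u y := c.resolve_left fun e => dom x hx (e ▸ hy.1)
        exact ⟨hy.1.resolve_left fun e => dom x hx (Or.inr (e ▸ a.symm)), a.symm⟩
      obtain ⟨y, hy⟩ := hS.1 x hx
      have r : R x := ⟨y, (k y hy).1, fun z hz => no4 ht.isAcyclic (k z hz).1 (k z hz).2
        (k y hy).1 (k y hy).2 fun e => uS (e ▸ hx)⟩
      exact cA x hx r u (Or.inr ((hp x r).2 y hy ▸ (k y hy).2))
  · have : ∑ v, f v = L.card := (card_eq_sum_card_fiberwise fun x _ => mem_univ (φ x)).symm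
    have : #L + #U = #S := card_sdiff_add_card_eq_card US
    simp only [Pi.add_apply, sum_add_distrib]
    omega

theorem result {V : Type} [Fintype V] [DecidableEq V] [Nontrivial V] (T : SimpleGraph V)
    (hT : T.IsTree) : irb T ≤ ir T := by
  classical
  obtain ⟨S, hS, mx⟩ := exists_max_image (univ.filter (Irr T)) card ⟨∅, by simp [Irr]⟩
  have : ir T ∈ {k | ∃ S, MaxIrr T S ∧ S.card = k} := Nat.sInf_mem ⟨_, S, ⟨by simpa using hS,
    fun U a b => absurd (card_lt_card a) (not_lt.2 (mx U (by simpa using b)))⟩, rfl⟩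
  obtain ⟨S, a, b⟩ := this
  obtain ⟨h, c, d⟩ := main hT S a
  exact (irb_le hT.connected h c).trans (b ▸ d)

end Pool.Agent.Results.MP_f42b44_co.Tree
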